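import Pool.Agent.Helper69.QG.St3

/-!
Project QD, part C, geometric half (MP_d112a4_gt, helper69), module SLM: matrices.
-/

set_option autoImplicit false

open Complex Set Metric
open scoped ComplexConjugate

namespace Pool.Agent.Helper81.QG

open Pool.Agent.Helper69.QG
open Pool.Agent.Helper35.PM

private noncomputable def rr : ℝ := Real.sqrt (C0 ^ 2 - 1)

private theorem rr_pos : 0 < rr := Real.sqrt_pos.2 (by nlinarith [C0_gt])

private theorem rr_sq : rr ^ 2 = C0 ^ 2 - 1 := Real.sq_sqrt (by nlinarith [C0_gt])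

private theorem rr_four : rr ^ 4 = 2 := by
  have h : rr ^ 4 = (rr ^ 2) ^ 2 := by ring
  rw [h, rr_sq, C0_rel, div_pow, one_pow, ← pow_mul, sg_four]
  norm_num

private noncomputable def cc : ℂ := ((C0 / rr : ℝ) : ℂ)

private noncomputable def dd : ℂ := ((1 / rr : ℝ) : ℂ)

private theorem cd1 : cc ^ 2 - dd ^ 2 = 1 := by
  unfold cc dd
  have h : (C0 / rr) ^ 2 - (1 / rr) ^ 2 = 1 := by
    have h1 := rr_pos.ne'
    rw [div_pow, div_pow, rr_sq, one_pow, ← sub_div, div_self]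
    rw [← rr_sq]
    exact pow_ne_zero 2 h1
  exact_mod_cast h

private theorem d4 : 2 * dd ^ 4 = 1 := by
  unfold dd
  have h : 2 * (1 / rr) ^ 4 = 1 := by
    rw [div_pow, rr_four]
    norm_num
  exact_mod_cast h

private theorem cc_conj : conj cc = cc := conj_ofReal _

private theorem dd_conj : conj dd = dd := conj_ofReal _

private theorem hI : I ^ 2 = -1 := I_sq

private noncomputable def mA : SL :=
  ⟨!![cc, dd; dd, cc], by rw [Matrix.det_fin_two_of]; linear_combination cd1⟩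

private noncomputable def mB : SL :=
  ⟨!![cc, I * dd; -(I * dd), cc], by
    rw [Matrix.det_fin_two_of]; linear_combination cd1 + dd ^ 2 * hI⟩

private theorem mA_coe : (mA : Mat) = !![cc, dd; dd, cc] := rfl

private theorem mB_coe : (mB : Mat) = !![cc, I * dd; -(I * dd), cc] := rfl

private theorem comm_tr : ((mA * mB * mA⁻¹ * mB⁻¹ : SL) : Mat) 0 0 +
    ((mA * mB * mA⁻¹ * mB⁻¹ : SL) : Mat) 1 1 = 0 := by
  rw [Matrix.SpecialLinearGroup.coe_mul, Matrix.SpecialLinearGroup.coe_mul,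
    Matrix.SpecialLinearGroup.coe_mul, Matrix.SpecialLinearGroup.coe_inv,
    Matrix.SpecialLinearGroup.coe_inv, mA_coe, mB_coe, Matrix.adjugate_fin_two_of,
    Matrix.adjugate_fin_two_of]
  simp only [Matrix.mul_apply, Fin.sum_univ_two, Matrix.of_apply, Matrix.cons_val',
    Matrix.cons_val_zero, Matrix.cons_val_one, Matrix.cons_val_fin_one, Matrix.empty_val']
  linear_combination (2 * (cc ^ 2 - dd ^ 2 + 1)) * cd1 - 2 * d4 +
    (2 * dd ^ 4 + 2 * cc ^ 2 * dd ^ 2) * hI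

/-- a matrix of trace zero has square `-1` -/
private theorem sq_neg (m : SL) (h : (m : Mat) 0 0 + (m : Mat) 1 1 = 0) :
    ((m ^ 2 : SL) : Mat) = -1 := by
  have hdet : (m : Mat) 0 0 * (m : Mat) 1 1 - (m : Mat) 0 1 * (m : Mat) 1 0 = 1 := by
    rw [← Matrix.det_fin_two]; exact m.2
  rw [Matrix.SpecialLinearGroup.coe_pow, pow_two]
  ext i j
  fin_cases i <;> fin_cases j
  · simp only [Matrix.mul_apply, Fin.sum_univ_two, Fin.zero_eta, Matrix.neg_apply,
      Matrix.one_apply_eq]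
    linear_combination (m : Mat) 0 0 * h - hdet
  · simp only [Matrix.mul_apply, Fin.sum_univ_two, Fin.zero_eta, Fin.mk_one, Matrix.neg_apply,
      Matrix.one_apply_ne (show (0 : Fin 2) ≠ 1 by decide), neg_zero]
    linear_combination (m : Mat) 0 1 * h
  · simp only [Matrix.mul_apply, Fin.sum_univ_two, Fin.zero_eta, Fin.mk_one, Matrix.neg_apply,
      Matrix.one_apply_ne (show (1 : Fin 2) ≠ 0 by decide), neg_zero]
    linear_combination (m : Mat) 1 0 * h
  · simp only [Matrix.mul_apply, Fin.sum_univ_two, Fin.mk_one, Matrix.neg_apply,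
      Matrix.one_apply_eq]
    linear_combination (m : Mat) 1 1 * h - hdet

private theorem comm_sq : (((mA * mB * mA⁻¹ * mB⁻¹) ^ 2 : SL) : Mat) = -1 := sq_neg _ comm_tr

private theorem comm_central (x : SL) : Commute ((mA * mB * mA⁻¹ * mB⁻¹) ^ 2) x := by
  apply Subtype.ext
  show (((mA * mB * mA⁻¹ * mB⁻¹) ^ 2 * x : SL) : Mat) =
    ((x * (mA * mB * mA⁻¹ * mB⁻¹) ^ 2 : SL) : Mat)
  rw [Matrix.SpecialLinearGroup.coe_mul, Matrix.SpecialLinearGroup.coe_mul, comm_sq]
  simp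

private theorem comm_four : (mA * mB * mA⁻¹ * mB⁻¹) ^ 4 = 1 := by
  apply Subtype.ext
  have h : (mA * mB * mA⁻¹ * mB⁻¹) ^ 4 =
      (mA * mB * mA⁻¹ * mB⁻¹) ^ 2 * (mA * mB * mA⁻¹ * mB⁻¹) ^ 2 := by
    rw [← pow_add]
  rw [h]
  show (((mA * mB * mA⁻¹ * mB⁻¹) ^ 2 * (mA * mB * mA⁻¹ * mB⁻¹) ^ 2 : SL) : Mat) =
    ((1 : SL) : Mat)
  rw [Matrix.SpecialLinearGroup.coe_mul, comm_sq, Matrix.SpecialLinearGroup.coe_one]
  simp

/-- compatibility of an element of the group and a matrix -/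
private def Ok (w : W) (m : SL) : Prop :=
  ((m : Mat) 1 0 = conj ((m : Mat) 0 1)) ∧ ((m : Mat) 1 1 = conj ((m : Mat) 0 0)) ∧
    ∀ z : DD, ((act w z : DD) : ℂ) =
      ((m : Mat) 0 0 * z + (m : Mat) 0 1) / ((m : Mat) 1 0 * z + (m : Mat) 1 1)

private theorem den_ne {m : SL} (h1 : (m : Mat) 1 0 = conj ((m : Mat) 0 1))
    (h2 : (m : Mat) 1 1 = conj ((m : Mat) 0 0)) (z : DD) :
    (m : Mat) 1 0 * z + (m : Mat) 1 1 ≠ 0 := by
  have hdet : (m : Mat) 0 0 * (m : Mat) 1 1 - (m : Mat) 0 1 * (m : Mat) 1 0 = 1 := by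
    rw [← Matrix.det_fin_two]; exact m.2
  rw [h1, h2, mul_conj, mul_conj] at hdet
  have h3 : normSq ((m : Mat) 0 0) - normSq ((m : Mat) 0 1) = 1 := by exact_mod_cast hdet
  rw [normSq_eq_norm_sq, normSq_eq_norm_sq] at h3
  have hz : ‖(z : ℂ)‖ < 1 := mem_ball_zero_iff.1 z.2
  intro h0
  have h4 : ‖(m : Mat) 1 0 * z‖ = ‖(m : Mat) 1 1‖ := by
    rw [eq_neg_of_add_eq_zero_left h0, norm_neg]
  rw [h1, h2, norm_mul, norm_conj, norm_conj] at h4
  have h5 := norm_nonneg ((m : Mat) 0 0)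
  have h6 := norm_nonneg ((m : Mat) 0 1)
  have h7 := norm_nonneg (z : ℂ)
  have h8 : ‖(m : Mat) 0 0‖ ≤ ‖(m : Mat) 0 1‖ := by
    rw [← h4]
    nlinarith
  nlinarith

private theorem Ok.mul {w w' : W} {m m' : SL} (h : Ok w m) (h' : Ok w' m') :
    Ok (w * w') (m * m') := by
  obtain ⟨a1, a2, a3⟩ := h
  obtain ⟨b1, b2, b3⟩ := h'
  have c1 : ((m * m' : SL) : Mat) 1 0 = conj (((m * m' : SL) : Mat) 0 1) := by
    rw [Matrix.SpecialLinearGroup.coe_mul]
    simp only [Matrix.mul_apply, Fin.sum_univ_two, map_add, map_mul, a1, a2, b1, b2, conj_conj]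
    ring
  have c2 : ((m * m' : SL) : Mat) 1 1 = conj (((m * m' : SL) : Mat) 0 0) := by
    rw [Matrix.SpecialLinearGroup.coe_mul]
    simp only [Matrix.mul_apply, Fin.sum_univ_two, map_add, map_mul, a1, a2, b1, b2, conj_conj]
    ring
  refine ⟨c1, c2, fun z => ?_⟩
  have e1 : ((act (w * w') z : DD) : ℂ) = ((act w (act w' z) : DD) : ℂ) := by
    rw [map_mul]; rfl
  have d1 := den_ne a1 a2 (act w' z)
  have d2 := den_ne b1 b2 z
  have d3 := den_ne c1 c2 z
  have hy := b3 z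
  rw [eq_div_iff d2] at hy
  rw [e1, a3, div_eq_div_iff d1 d3]
  rw [Matrix.SpecialLinearGroup.coe_mul]
  simp only [Matrix.mul_apply, Fin.sum_univ_two]
  linear_combination ((m : Mat) 0 0 * (m : Mat) 1 1 - (m : Mat) 0 1 * (m : Mat) 1 0) * hy

private theorem Ok.inv {w : W} {m : SL} (h : Ok w m) : Ok w⁻¹ m⁻¹ := by
  obtain ⟨a1, a2, a3⟩ := h
  have hm : ((m⁻¹ : SL) : Mat) = !![(m : Mat) 1 1, -(m : Mat) 0 1; -(m : Mat) 1 0, (m : Mat) 0 0] := by
    rw [Matrix.SpecialLinearGroup.coe_inv, Matrix.adjugate_fin_two]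
  have e00 : ((m⁻¹ : SL) : Mat) 0 0 = (m : Mat) 1 1 := by rw [hm]; rfl
  have e01 : ((m⁻¹ : SL) : Mat) 0 1 = -(m : Mat) 0 1 := by rw [hm]; rfl
  have e10 : ((m⁻¹ : SL) : Mat) 1 0 = -(m : Mat) 1 0 := by rw [hm]; rfl
  have e11 : ((m⁻¹ : SL) : Mat) 1 1 = (m : Mat) 0 0 := by rw [hm]; rfl
  have c1 : ((m⁻¹ : SL) : Mat) 1 0 = conj (((m⁻¹ : SL) : Mat) 0 1) := by
    rw [e10, e01, map_neg, a1]
  have c2 : ((m⁻¹ : SL) : Mat) 1 1 = conj (((m⁻¹ : SL) : Mat) 0 0) := by
    rw [e11, e00, a2, conj_conj]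
  refine ⟨c1, c2, fun z => ?_⟩
  set y : DD := act w⁻¹ z with hy
  have h1 : act w y = z := by
    rw [hy, ← Equiv.Perm.mul_apply, ← map_mul, mul_inv_cancel, map_one]
    rfl
  have h2 := a3 y
  rw [h1] at h2
  have d1 := den_ne a1 a2 y
  have d3 := den_ne c1 c2 z
  rw [eq_div_iff d1] at h2
  rw [eq_div_iff d3, e00, e01, e10, e11]
  linear_combination -h2

private theorem Ok.one : Ok 1 1 := by
  refine ⟨by simp, by simp, fun z => ?_⟩
  simp

private theorem ok_A : Ok wA mA := by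
  refine ⟨?_, ?_, fun z => ?_⟩
  · rw [mA_coe]
    show dd = conj dd
    rw [dd_conj]
  · rw [mA_coe]
    show cc = conj cc
    rw [cc_conj]
  · rw [mA_coe]
    show ((act wA z : DD) : ℂ) = (cc * z + dd) / (dd * z + cc)
    have e1 : ((act wA z : DD) : ℂ) = R 1 (R 0 z) := by
      unfold wA
      rw [map_mul, act_gen, act_gen]
      rfl
    have hr : (rr : ℂ) ≠ 0 := by exact_mod_cast rr_pos.ne'
    have e2 : cc * z + dd = (C0 * z + 1) / rr := by
      unfold cc dd; push_cast; field_simp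
    have e3 : dd * z + cc = (z + C0) / rr := by
      unfold cc dd; push_cast; field_simp
    rw [e1, e2, e3, div_div_div_cancel_right₀ hr]
    show ((C0 : ℂ) * conj (-conj (z : ℂ)) - 1) / (conj (-conj (z : ℂ)) - C0) =
      (C0 * z + 1) / (z + C0)
    rw [map_neg, conj_conj]
    rw [← neg_div_neg_eq]
    congr 1 <;> ring

private theorem ok_B : Ok wB mB := by
  refine ⟨?_, ?_, fun z => ?_⟩
  · rw [mB_coe]
    show -(I * dd) = conj (I * dd)
    rw [map_mul, dd_conj, conj_I]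
    ring
  · rw [mB_coe]
    show cc = conj cc
    rw [cc_conj]
  · rw [mB_coe]
    show ((act wB z : DD) : ℂ) = (cc * z + I * dd) / (-(I * dd) * z + cc)
    have e1 : ((act wB z : DD) : ℂ) = R 3 (R 2 z) := by
      unfold wB
      rw [map_mul, act_gen, act_gen]
      rfl
    have hr : (rr : ℂ) ≠ 0 := by exact_mod_cast rr_pos.ne'
    have e2 : cc * z + I * dd = (C0 * z + I) / rr := by
      unfold cc dd; push_cast; field_simp
    have e3 : -(I * dd) * z + cc = (-I * z + C0) / rr := by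
      unfold cc dd; push_cast; field_simp
    rw [e1, e2, e3, div_div_div_cancel_right₀ hr]
    show (I * (C0 : ℂ) * conj (conj (z : ℂ)) - 1) / (conj (conj (z : ℂ)) + I * C0) =
      (C0 * z + I) / (-I * z + C0)
    rw [conj_conj]
    have e4 : I * (C0 : ℂ) * z - 1 = I * (C0 * z + I) := by linear_combination -hI
    have e5 : (z : ℂ) + I * C0 = I * (-I * z + C0) := by linear_combination z * hI
    rw [e4, e5, mul_div_mul_left _ _ I_ne_zero]

/-- the pairs of compatible elements form a group -/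
private def OkG : Subgroup (W × SL) where
  carrier := {p | Ok p.1 p.2}
  mul_mem' := fun h h' => Ok.mul h h'
  one_mem' := Ok.one
  inv_mem' := fun h => Ok.inv h

theorem cSLM (wrd : St_WRD) : St_SLM := by
  intro ι hι
  obtain ⟨i1, i2, i3, i4⟩ := hι
  set f : Fin 2 × Bool → SL := fun p =>
    if p.1 = 0 then (if p.2 then wb1 mA mB else wa1 mA mB)
    else (if p.2 then wb2 mA mB else wa2 mA mB) with hf
  have f1 : f (0, false) = wa1 mA mB := by simp [hf]
  have f2 : f (0, true) = wb1 mA mB := by simp [hf]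
  have f3 : f (1, false) = wa2 mA mB := by simp [hf]
  have f4 : f (1, true) = wb2 mA mB := by simp [hf]
  have hrel : ∀ r ∈ ({relator 2} : Set (FreeGroup (Fin 2 × Bool))), FreeGroup.lift f r = 1 := by
    intro r hr
    rw [mem_singleton_iff] at hr
    rw [hr]
    have h := wrd.1 SL mA mB comm_central comm_four
    simp only [relator, List.ofFn_succ, List.ofFn_zero, List.prod_cons, List.prod_nil, map_mul,
      map_inv, FreeGroup.lift_apply_of, mul_one, Fin.succ_zero_eq_one, f1, f2, f3, f4]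
    exact h
  set s : SurfaceGroup 2 →* SL := PresentedGroup.toGroup hrel with hs
  have hsg : ∀ p, s (PresentedGroup.of p) = f p := fun p => PresentedGroup.toGroup.of hrel
  refine ⟨s, ?_⟩
  have gA : (wA, mA) ∈ OkG := ok_A
  have gB : (wB, mB) ∈ OkG := ok_B
  have g1 : (wa1 wA wB, wa1 mA mB) ∈ OkG := by
    have h := OkG.mul_mem (OkG.mul_mem (OkG.pow_mem gA 2) gB) (OkG.inv_mem (OkG.pow_mem gA 3))
    exact h
  have g2 : (wb1 wA wB, wb1 mA mB) ∈ OkG := by
    have h := OkG.mul_mem (OkG.mul_mem (OkG.mul_mem (OkG.mul_mem gA (OkG.inv_mem gB)) gA) gB)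
      (OkG.inv_mem (OkG.pow_mem gA 4))
    exact h
  have g3 : (wa2 wA wB, wa2 mA mB) ∈ OkG := by
    have h := OkG.mul_mem (OkG.mul_mem (OkG.mul_mem gA (OkG.inv_mem gB)) gA) gB
    exact h
  have g4 : (wb2 wA wB, wb2 mA mB) ∈ OkG := by
    have h := OkG.mul_mem gB (OkG.inv_mem gA)
    exact h
  have hgen : ∀ p : Fin 2 × Bool, (PresentedGroup.of p : SurfaceGroup 2) ∈
      OkG.comap (ι.prod s) := by
    rintro ⟨i, e⟩
    rw [Subgroup.mem_comap, MonoidHom.prod_apply, hsg]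
    fin_cases i <;> cases e
    · show (ι (sgen 2 0 false), f (0, false)) ∈ OkG
      rw [i1, f1]; exact g1
    · show (ι (sgen 2 0 true), f (0, true)) ∈ OkG
      rw [i2, f2]; exact g2
    · show (ι (sgen 2 1 false), f (1, false)) ∈ OkG
      rw [i3, f3]; exact g3
    · show (ι (sgen 2 1 true), f (1, true)) ∈ OkG
      rw [i4, f4]; exact g4
  have htop : OkG.comap (ι.prod s) = ⊤ := by
    rw [eq_top_iff, ← PresentedGroup.closure_range_of, Subgroup.closure_le]
    rintro _ ⟨p, rfl⟩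
    exact hgen p
  intro x
  have hx : x ∈ OkG.comap (ι.prod s) := by rw [htop]; exact Subgroup.mem_top x
  exact hx

end Pool.Agent.Helper81.QG
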